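import Mathlib

/-!
# MP_e10300_co: triangles are not forced. Definitions and statements of the rows

Kernel `∏_{j < M} (1 + κ 1_B(x_j) 1_B(y_j))` with `|B| = 1/K`, `K = κ^s`, `M = κ^(3s-3)`.
-/

set_option autoImplicit false

open Filter Topology

namespace Pool.Agent.Helper29.TC

/-- oriented edges of a simple graph -/
def Smp {α : Type} (E : Finset (α × α)) : Prop := ∀ e ∈ E, e.1 ≠ e.2 ∧ (e.2, e.1) ∉ E

/-- vertices of one factor -/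
abbrev V0 (K κ D : ℕ) : Type := Fin K × (Fin D × (Fin D → ZMod (κ + 1)))

/-- adjacency in one factor, loops allowed -/
def R0 {K κ D : ℕ} (x y : V0 K κ D) : Prop :=
  ((x.1 : ℕ) = 0 ∧ (y.1 : ℕ) = 0) ∨ x.2.2 y.2.1 + y.2.2 x.2.1 = 0

/-- vertices -/
abbrev VV (K κ M D : ℕ) : Type := Fin M → V0 K κ D

/-- adjacency, loops allowed -/
def RR {K κ M D : ℕ} (x y : VV K κ M D) : Prop := ∀ j, R0 (x j) (y j)

theorem RR_symm {K κ M D : ℕ} {x y : VV K κ M D} (h : RR x y) : RR y x := by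
  intro j
  rcases h j with h1 | h1
  · exact Or.inl ⟨h1.2, h1.1⟩
  · exact Or.inr ((add_comm _ _).trans h1)

/-- number of vertices -/
def nn (K κ M D : ℕ) : ℕ := (K * (D * (κ + 1) ^ D)) ^ M

theorem card_VV (K κ M D : ℕ) : Fintype.card (VV K κ M D) = nn K κ M D := by
  simp [VV, V0, nn, ZMod.card]

/-- numbering of the vertices -/
noncomputable def eqv (K κ M D : ℕ) : Fin (nn K κ M D) ≃ VV K κ M D :=
  (Fintype.equivFinOfCardEq (card_VV K κ M D)).symm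

/-- the graph -/
def GG (K κ M D : ℕ) : SimpleGraph (Fin (nn K κ M D)) where
  Adj a b := a ≠ b ∧ RR (eqv K κ M D a) (eqv K κ M D b)
  symm := ⟨fun _ _ h => ⟨h.1.symm, RR_symm h.2⟩⟩
  loopless := ⟨fun _ h => h.1 rfl⟩

/-- number of embeddings -/
noncomputable def injc {α : Type} (E : Finset (α × α)) {n : ℕ} (G : SimpleGraph (Fin n)) : ℕ :=
  Set.ncard {f : α → Fin n | Function.Injective f ∧ ∀ e ∈ E, G.Adj (f e.1) (f e.2)}

/-- normalised number of embeddings -/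
noncomputable def sp {α : Type} [Fintype α] (E : Finset (α × α)) {n : ℕ}
    (G : SimpleGraph (Fin n)) (p : ℝ) : ℝ :=
  (injc E G : ℝ) / ((n.descFactorial (Fintype.card α) : ℝ) * p ^ E.card)

/-- edges with both ends in `B` -/
def zz {α : Type} (E : Finset (α × α)) {K : ℕ} (b : α → Fin K) : Finset (α × α) :=
  E.filter (fun e => (b e.1 : ℕ) = 0 ∧ (b e.2 : ℕ) = 0)

/-- density in the kernel of one factor -/
noncomputable def tw {α : Type} [Fintype α] [DecidableEq α] (E : Finset (α × α)) (K κ : ℕ) : ℝ :=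
  (∑ b : α → Fin K, ((1 : ℝ) + κ) ^ (zz E b).card) / (K : ℝ) ^ Fintype.card α

/-- edge density -/
noncomputable def pp (K κ M : ℕ) : ℝ := ((1 + (κ : ℝ) / (K : ℝ) ^ 2) / (1 + κ)) ^ M

/-- normalised density in the kernel -/
noncomputable def TT {α : Type} [Fintype α] [DecidableEq α] (E : Finset (α × α)) (K κ M : ℕ) : ℝ :=
  (tw E K κ / (1 + (κ : ℝ) / (K : ℝ) ^ 2) ^ E.card) ^ M

/-- homomorphisms to one factor with distinct addresses -/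
noncomputable def homI {α : Type} (E : Finset (α × α)) (K κ D : ℕ) : ℕ :=
  Set.ncard {f : α → V0 K κ D | Function.Injective (fun i => (f i).2.1) ∧
    ∀ e ∈ E, R0 (f e.1) (f e.2)}

/-- homomorphisms to one factor -/
noncomputable def homA {α : Type} (E : Finset (α × α)) (K κ D : ℕ) : ℕ :=
  Set.ncard {f : α → V0 K κ D | ∀ e ∈ E, R0 (f e.1) (f e.2)}

/-- an edge, a triangle, a four-cycle, a complete bipartite graph -/
def E2 : Finset (Fin 2 × Fin 2) := {(0, 1)}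
def E3 : Finset (Fin 3 × Fin 3) := {(0, 1), (1, 2), (2, 0)}
def E4 : Finset (Fin 4 × Fin 4) := {(0, 1), (1, 2), (2, 3), (3, 0)}
def Est (s t : ℕ) : Finset ((Fin s ⊕ Fin t) × (Fin s ⊕ Fin t)) :=
  (Finset.univ : Finset (Fin s × Fin t)).image (fun x => (Sum.inl x.1, Sum.inr x.2))

/-! ### counting in the graph -/

/-- the equations of different edges are independent -/
def ST_CNTH : Prop := ∀ (α : Type) [Fintype α] [DecidableEq α] (κ D : ℕ) (E : Finset (α × α))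
  (a : α → Fin D), Smp E → Function.Injective a →
  Set.ncard {h : α → Fin D → ZMod (κ + 1) | ∀ e ∈ E, h e.1 (a e.2) + h e.2 (a e.1) = 0} *
    (κ + 1) ^ E.card = (κ + 1) ^ (D * Fintype.card α)

/-- homomorphisms with distinct addresses -/
def ST_HI : Prop := ∀ (α : Type) [Fintype α] [DecidableEq α] (K κ D : ℕ) (E : Finset (α × α)),
  Smp E → homI E K κ D * (κ + 1) ^ E.card = D.descFactorial (Fintype.card α) *
    ((κ + 1) ^ (D * Fintype.card α) * ∑ b : α → Fin K, (κ + 1) ^ (zz E b).card)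

/-- the other homomorphisms are few -/
def ST_HA : Prop := ∀ (α : Type) [Fintype α] [DecidableEq α] (K κ D : ℕ) (E : Finset (α × α)),
  homA E K κ D ≤ homI E K κ D + K ^ Fintype.card α *
    ((D ^ Fintype.card α - D.descFactorial (Fintype.card α)) * (κ + 1) ^ (D * Fintype.card α))

/-- products -/
def ST_PR : Prop := ∀ (α : Type) [Fintype α] [DecidableEq α] (K κ M D : ℕ) (E : Finset (α × α)),
  Smp E → 1 ≤ M → homI E K κ D ^ M ≤ injc E (GG K κ M D) ∧ injc E (GG K κ M D) ≤ homA E K κ D ^ M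

/-- the limit for many addresses -/
def ST_LIM : Prop := ∀ (α : Type) [Fintype α] [DecidableEq α] (K κ M : ℕ) (E : Finset (α × α)),
  Smp E → 1 ≤ K → 1 ≤ M →
  Tendsto (fun D => sp E (GG K κ M D) (pp K κ M)) atTop (𝓝 (TT E K κ M))

/-! ### the kernel -/

/-- sum over the set of vertices in `B` -/
def ST_TWS : Prop := ∀ (α : Type) [Fintype α] [DecidableEq α] (K κ : ℕ) (E : Finset (α × α)),
  1 ≤ K → tw E K κ = (∑ S : Finset α, ((K : ℝ) - 1) ^ (Fintype.card α - S.card) *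
    ((1 : ℝ) + κ) ^ (E.filter (fun e => e.1 ∈ S ∧ e.2 ∈ S)).card) / (K : ℝ) ^ Fintype.card α

def ST_W2 : Prop := ∀ K κ : ℕ, 1 ≤ K → tw E2 K κ = 1 + (κ : ℝ) / (K : ℝ) ^ 2

def ST_W3 : Prop := ∀ K κ : ℕ, 1 ≤ K → tw E3 K κ = 1 + 3 * (κ : ℝ) / (K : ℝ) ^ 2 +
  3 * (κ : ℝ) ^ 2 / (K : ℝ) ^ 3 + (κ : ℝ) ^ 3 / (K : ℝ) ^ 3

def ST_W4 : Prop := ∀ K κ : ℕ, 1 ≤ K → tw E4 K κ = 1 + 4 * (κ : ℝ) / (K : ℝ) ^ 2 +
  4 * (κ : ℝ) ^ 2 / (K : ℝ) ^ 3 + 2 * (κ : ℝ) ^ 2 / (K : ℝ) ^ 4 + 4 * (κ : ℝ) ^ 3 / (K : ℝ) ^ 4 +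
  (κ : ℝ) ^ 4 / (K : ℝ) ^ 4

/-- the complete bipartite graph as a double sum -/
def ST_WSB : Prop := ∀ s t K κ : ℕ, 1 ≤ K → tw (Est s t) K κ =
  ∑ a ∈ Finset.range (s + 1), ∑ b ∈ Finset.range (t + 1), (s.choose a : ℝ) * (t.choose b : ℝ) *
    (1 / (K : ℝ)) ^ (a + b) * (1 - 1 / (K : ℝ)) ^ (s + t - (a + b)) * (1 + (κ : ℝ)) ^ (a * b)

/-- bound for the complete bipartite graph -/
def ST_WST : Prop := ∀ s t κ : ℕ, 2 ≤ s → 1 ≤ t → 1 ≤ κ → tw (Est s t) (κ ^ s) κ ≤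
  1 + s * t * (κ : ℝ) / ((κ ^ s : ℕ) : ℝ) ^ 2 +
    2 ^ (s + t + s * t) * ((κ : ℝ) ^ 2 / ((κ ^ s : ℕ) : ℝ) ^ 3)

/-- triangles -/
def ST_T3 : Prop := ∀ s κ : ℕ, 2 ≤ s → 2 ≤ κ → 3 / 2 ≤ TT E3 (κ ^ s) κ (κ ^ (3 * s - 3))

/-- four-cycles -/
def ST_T4 : Prop := ∀ s κ : ℕ, 2 ≤ s → 1 ≤ κ → 1 ≤ TT E4 (κ ^ s) κ (κ ^ (3 * s - 3)) ∧
  TT E4 (κ ^ s) κ (κ ^ (3 * s - 3)) ≤ Real.exp (11 / κ)

/-- complete bipartite graphs -/
def ST_TST : Prop := ∀ s t κ : ℕ, 2 ≤ s → 1 ≤ t → 1 ≤ κ →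
  TT (Est s t) (κ ^ s) κ (κ ^ (3 * s - 3)) ≤ Real.exp (2 ^ (s + t + s * t))

/-! ### assembly -/

/-- a constant is larger than the threshold -/
def ST_GRO : Prop := ∀ (s : ℕ) (a c : ℝ), 1 ≤ s → 0 < a → 0 < c →
  Tendsto (fun n : ℕ => c / ((Real.log n) ^ a * (n : ℝ) ^ (-(1 / (s : ℝ))))) atTop atTop

/-- a sequence of graphs from infinitely many graphs -/
def ST_SEL : Prop := ∀ P : ℕ → ∀ n : ℕ, ℝ → SimpleGraph (Fin n) → Prop,
  (∀ j N : ℕ, ∃ n, N ≤ n ∧ ∃ (p : ℝ) (G : SimpleGraph (Fin n)), P j n p G) →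
  ∃ (p : ℕ → ℝ) (G : ∀ n, SimpleGraph (Fin n)) (ν : ℕ → ℕ), StrictMono ν ∧
    (∀ j, P j (ν j) (p (ν j)) (G (ν j))) ∧ ∀ n, n ∉ Set.range ν → p n = 1 ∧ G n = ⊤

/-- complete graphs -/
def ST_KN : Prop := ∀ (α : Type) [Fintype α] [DecidableEq α] (E : Finset (α × α)) (n : ℕ), Smp E →
  sp E (⊤ : SimpleGraph (Fin n)) 1 ≤ 1 ∧
    (Fintype.card α ≤ n → sp E (⊤ : SimpleGraph (Fin n)) 1 = 1)

/-- the patterns of the problem -/
def ST_CNV : Prop := ∀ (n : ℕ) (G : SimpleGraph (Fin n)) (s t : ℕ),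
  {f : Fin 2 → Fin n | Function.Injective f ∧
    ∀ i j, (⊤ : SimpleGraph (Fin 2)).Adj i j → G.Adj (f i) (f j)} =
    {f : Fin 2 → Fin n | Function.Injective f ∧ ∀ e ∈ E2, G.Adj (f e.1) (f e.2)} ∧
  {f : Fin 3 → Fin n | Function.Injective f ∧
    ∀ i j, (SimpleGraph.cycleGraph 3).Adj i j → G.Adj (f i) (f j)} =
    {f : Fin 3 → Fin n | Function.Injective f ∧ ∀ e ∈ E3, G.Adj (f e.1) (f e.2)} ∧
  {f : Fin 4 → Fin n | Function.Injective f ∧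
    ∀ i j, (SimpleGraph.cycleGraph 4).Adj i j → G.Adj (f i) (f j)} =
    {f : Fin 4 → Fin n | Function.Injective f ∧ ∀ e ∈ E4, G.Adj (f e.1) (f e.2)} ∧
  {f : Fin s ⊕ Fin t → Fin n | Function.Injective f ∧
    ∀ i j, (completeBipartiteGraph (Fin s) (Fin t)).Adj i j → G.Adj (f i) (f j)} =
    {f : Fin s ⊕ Fin t → Fin n | Function.Injective f ∧ ∀ e ∈ Est s t, G.Adj (f e.1) (f e.2)}

/-- the patterns are simple, numbers of edges -/
def ST_SMP : Prop := Smp E2 ∧ Smp E3 ∧ Smp E4 ∧ (∀ s t, Smp (Est s t)) ∧ E2.card = 1 ∧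
  E3.card = 3 ∧ E4.card = 4 ∧ ∀ s t, (Est s t).card = s * t

/-- one graph of the sequence -/
def Good (s : ℕ) (a : ℝ) (j n : ℕ) (p : ℝ) (G : SimpleGraph (Fin n)) : Prop :=
  0 < p ∧ p ≤ 1 ∧ (j : ℝ) ≤ p / ((Real.log n) ^ a * (n : ℝ) ^ (-(1 / (s : ℝ)))) ∧
  |sp E2 G p - 1| ≤ 1 / ((j : ℝ) + 1) ∧
  |sp E4 G p - 1| ≤ Real.exp (11 / ((j : ℝ) + 2)) - 1 + 1 / ((j : ℝ) + 1) ∧
  (∀ t : ℕ, 1 ≤ t → t ≤ j → sp (Est s t) G p ≤ Real.exp (2 ^ (s + t + s * t)) + 1) ∧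
  5 / 4 ≤ sp E3 G p

/-- good graphs exist -/
def ST_GD : Prop := ∀ (s : ℕ) (a : ℝ), 2 ≤ s → 0 < a → ∀ j N : ℕ, ∃ n, N ≤ n ∧
  ∃ (p : ℝ) (G : SimpleGraph (Fin n)), Good s a j n p G

/-- the answer -/
def ST_ANS : Prop := ∀ (s : ℕ) (a : ℝ), 2 ≤ s → 0 < a →
  ∃ (p : ℕ → ℝ) (G : ∀ n : ℕ, SimpleGraph (Fin n)), (∀ n, 0 < p n ∧ p n ≤ 1) ∧
    Tendsto (fun n : ℕ => p n / ((Real.log n) ^ a * (n : ℝ) ^ (-(1 / (s : ℝ))))) atTop atTop ∧
    Tendsto (fun n : ℕ => sp E2 (G n) (p n)) atTop (𝓝 1) ∧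
    Tendsto (fun n : ℕ => sp E4 (G n) (p n)) atTop (𝓝 1) ∧
    (∀ t : ℕ, 1 ≤ t → ∃ C : ℝ, ∀ n : ℕ, sp (Est s t) (G n) (p n) ≤ C) ∧
    ¬ Tendsto (fun n : ℕ => sp E3 (G n) (p n)) atTop (𝓝 1)

/-- the frozen negation -/
def ST_FRZ : Prop := ¬ (∃ s : ℕ, 2 ≤ s ∧ ∃ a : ℝ, 0 < a ∧
      ∀ p : ℕ → ℝ, (∀ n, 0 < p n ∧ p n ≤ 1) →
        Tendsto (fun n : ℕ => p n / ((Real.log n) ^ a * (n : ℝ) ^ (-(1 / (s : ℝ))))) atTop atTop →
        ∀ G : ∀ n : ℕ, SimpleGraph (Fin n),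
          Tendsto (fun n : ℕ =>
            (Set.ncard {f : Fin 2 → Fin n | Function.Injective f ∧
                ∀ i j, (⊤ : SimpleGraph (Fin 2)).Adj i j → (G n).Adj (f i) (f j)} : ℝ) /
              ((n.descFactorial 2 : ℝ) * p n ^ 1)) atTop (𝓝 1) →
          Tendsto (fun n : ℕ =>
            (Set.ncard {f : Fin 4 → Fin n | Function.Injective f ∧
                ∀ i j, (SimpleGraph.cycleGraph 4).Adj i j → (G n).Adj (f i) (f j)} : ℝ) /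
              ((n.descFactorial 4 : ℝ) * p n ^ 4)) atTop (𝓝 1) →
          (∀ t : ℕ, 1 ≤ t → ∃ C : ℝ, ∀ n : ℕ,
            (Set.ncard {f : Fin s ⊕ Fin t → Fin n | Function.Injective f ∧
                ∀ i j, (completeBipartiteGraph (Fin s) (Fin t)).Adj i j → (G n).Adj (f i) (f j)} : ℝ) /
              ((n.descFactorial (s + t) : ℝ) * p n ^ (s * t)) ≤ C) →
          Tendsto (fun n : ℕ =>
            (Set.ncard {f : Fin 3 → Fin n | Function.Injective f ∧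
                ∀ i j, (SimpleGraph.cycleGraph 3).Adj i j → (G n).Adj (f i) (f j)} : ℝ) /
              ((n.descFactorial 3 : ℝ) * p n ^ 3)) atTop (𝓝 1))

end Pool.Agent.Helper29.TC
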